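import Pool.Agent.H41.CO.Defs

set_option autoImplicit false

/-!
# Project CO (helper41): representatives for the cycles of a family of permutations
-/

namespace Pool.Agent.H675.CO

open Equiv Pool.Agent.H41.CO
open scoped Classical

/-- the representative of a cycle -/
noncomputable def rp {V : Type} (σ : Perm V) (x : V) : V :=
  (Quotient.mk (Perm.SameCycle.setoid σ) x).out

theorem rp_same {V : Type} (σ : Perm V) (x : V) : σ.SameCycle (rp σ x) x :=
  Quotient.mk_out (s := Perm.SameCycle.setoid σ) x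

theorem rp_eq {V : Type} {σ : Perm V} {x y : V} (h : σ.SameCycle x y) : rp σ x = rp σ y := by
  unfold rp
  rw [Quotient.sound (s := Perm.SameCycle.setoid σ) h]

theorem divmod {q a b a' b' : ℕ} (hb : b < q) (hb' : b' < q) (h : a * q + b = a' * q + b') :
    a = a' ∧ b = b' := by
  have h1 : (b + q * a) % q = (b' + q * a') % q := by
    rw [Nat.mul_comm q a, Nat.mul_comm q a', Nat.add_comm b, Nat.add_comm b', h]
  rw [Nat.add_mul_mod_self_left, Nat.add_mul_mod_self_left, Nat.mod_eq_of_lt hb,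
    Nat.mod_eq_of_lt hb'] at h1
  have h2 : a * q = a' * q := by omega
  exact ⟨Nat.eq_of_mul_eq_mul_right (by omega) h2, h1⟩

theorem lt_sq {q a b : ℕ} (ha : a < q) (hb : b < q) : a * q + b < q ^ 2 := by
  have h1 : (a + 1) * q ≤ q * q := Nat.mul_le_mul_right q ha
  rw [sq]
  calc a * q + b < a * q + q := Nat.add_lt_add_left hb _
    _ = (a + 1) * q := by ring
    _ ≤ q * q := h1

theorem reps (hs : S_SEL) : S_REPS := by
  intro V I _ _ _ τ P q hq hlong
  -- the pure cycles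
  let Ix : Type := {z : I × V // rp (τ z.1) z.2 = z.2 ∧ τ z.1 z.2 ≠ z.2 ∧
    ∀ y, (τ z.1).SameCycle z.2 y → P z.1 y}
  let u : Ix → Fin q → Fin q → V := fun z a b => ((τ z.1.1) ^ ((a : ℕ) * q + b)) z.1.2
  let w : Ix → Fin q → Fin q → V := fun z a b => τ z.1.1 (u z a b)
  have hu_same : ∀ (z : Ix) a b, (τ z.1.1).SameCycle z.1.2 (u z a b) := by
    intro z a b
    exact Perm.sameCycle_pow_right.2 (Perm.SameCycle.refl _ _)
  have hinj : ∀ (z : Ix) (a b a' b' : Fin q), u z a b = u z a' b' → a = a' ∧ b = b' := by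
    intro z a b a' b' h
    have h1 := hlong z.1.1 z.1.2 z.2.2.1 z.2.2.2 _ _ (lt_sq a.2 b.2) (lt_sq a'.2 b'.2) h
    obtain ⟨h2, h3⟩ := divmod b.2 b'.2 h1
    exact ⟨Fin.ext h2, Fin.ext h3⟩
  have hu1 : ∀ z : Ix, Function.Injective fun a : Fin q × Fin q => u z a.1 a.2 := by
    rintro z ⟨a, b⟩ ⟨a', b'⟩ h
    obtain ⟨h1, h2⟩ := hinj z a b a' b' h
    rw [h1, h2]
  have hw1 : ∀ z : Ix, Function.Injective fun a : Fin q × Fin q => w z a.1 a.2 := by
    rintro z ⟨a, b⟩ ⟨a', b'⟩ h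
    obtain ⟨h1, h2⟩ := hinj z a b a' b' ((τ z.1.1).injective h)
    rw [h1, h2]
  have hkey : ∀ (z z' : Ix) (a b a' b' : Fin q), z.1.1 = z'.1.1 → u z a b = u z' a' b' →
      z = z' ∧ a = a' ∧ b = b' := by
    intro z z' a b a' b' hi h
    have h1 : (τ z.1.1).SameCycle z.1.2 z'.1.2 := by
      have h2 := hu_same z a b
      have h3 := hu_same z' a' b'
      rw [h] at h2
      rw [← hi] at h3
      exact h2.trans h3.symm
    have h4 : z.1.2 = z'.1.2 := by
      have h5 := rp_eq h1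
      rw [z.2.1, hi, z'.2.1] at h5
      exact h5
    have h6 : z = z' := Subtype.ext (Prod.ext hi h4)
    subst h6
    exact ⟨rfl, hinj z a b a' b' h⟩
  have hcard : ∀ s : Set (Ix × Fin q × Fin q), (∀ α ∈ s, ∀ α' ∈ s, α.1.1.1 = α'.1.1.1 → α = α') →
      s.ncard ≤ Fintype.card I := by
    intro s hs'
    have h := Set.ncard_le_ncard_of_injOn (s := s) (t := (Set.univ : Set I))
      (fun α => α.1.1.1) (fun _ _ => Set.mem_univ _) (fun α hα α' hα' h => hs' α hα α' hα' h)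
      Set.finite_univ
    rwa [Set.ncard_univ, Nat.card_eq_fintype_card] at h
  obtain ⟨a, b, hua, hwa⟩ := hs V Ix q (Fintype.card I) u w hq hu1 hw1
    (fun v => hcard _ (by
      rintro ⟨z, a, b⟩ hα ⟨z', a', b'⟩ hα' h
      obtain ⟨h1, h2, h3⟩ := hkey z z' a b a' b' h (Eq.trans hα (Eq.symm hα'))
      rw [h1, h2, h3]))
    (fun v => hcard _ (by
      rintro ⟨z, a, b⟩ hα ⟨z', a', b'⟩ hα' h
      have h4 : τ z.1.1 (u z a b) = τ z'.1.1 (u z' a' b') := Eq.trans hα (Eq.symm hα')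
      have h : z.1.1 = z'.1.1 := h
      rw [← h] at h4
      obtain ⟨h1, h2, h3⟩ := hkey z z' a b a' b' h ((τ z.1.1).injective h4)
      rw [h1, h2, h3]))
  have hR : ∀ i x, x ∈ (fun i => Finset.univ.filter fun x => (τ i x ≠ x ∧ ¬ P i x) ∨
      ∃ α : Ix, α.1.1 = i ∧ u α (a α) (b α) = x) i ↔ (τ i x ≠ x ∧ ¬ P i x) ∨
      ∃ α : Ix, α.1.1 = i ∧ u α (a α) (b α) = x := by
    intro i x
    simp only [Finset.mem_filter, Finset.mem_univ, true_and]
  refine ⟨fun i => Finset.univ.filter fun x => (τ i x ≠ x ∧ ¬ P i x) ∨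
      ∃ α : Ix, α.1.1 = i ∧ u α (a α) (b α) = x, ?_, ?_, ?_, ?_⟩
  · intro i x hx
    by_cases hp : ∀ y, (τ i).SameCycle x y → P i y
    · have h1 := rp_same (τ i) x
      let α : Ix := ⟨(i, rp (τ i) x), rp_eq h1, fun h => hx (h1.apply_eq_self_iff.1 h),
        fun y hy => hp y (h1.symm.trans hy)⟩
      refine ⟨u α (a α) (b α), (hR i _).2 (Or.inr ⟨α, rfl, rfl⟩), ?_⟩
      exact h1.symm.trans (hu_same α (a α) (b α))
    · push Not at hp
      obtain ⟨y, hy1, hy2⟩ := hp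
      refine ⟨y, (hR i y).2 (Or.inl ⟨fun h => hx (hy1.apply_eq_self_iff.2 h), hy2⟩), hy1⟩
  · intro i x hx hp
    exact (hR i x).2 (Or.inl ⟨hx, hp⟩)
  · intro v
    have h1 : {i | v ∈ (fun i => Finset.univ.filter fun x => (τ i x ≠ x ∧ ¬ P i x) ∨
        ∃ α : Ix, α.1.1 = i ∧ u α (a α) (b α) = x) i} ⊆ {i | τ i v ≠ v ∧ ¬ P i v} ∪
        (fun α : Ix => α.1.1) '' {α | u α (a α) (b α) = v} := by
      intro i hi
      rcases (hR i v).1 hi with h | ⟨α, h2, h3⟩
      · exact Or.inl h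
      · exact Or.inr ⟨α, h3, h2⟩
    refine (Set.ncard_le_ncard h1 (Set.toFinite _)).trans ((Set.ncard_union_le _ _).trans ?_)
    refine Nat.add_le_add_left ((Set.ncard_image_le (Set.toFinite _)).trans (hua v)) _
  · intro v
    have h1 : {i | (τ i).symm v ∈ (fun i => Finset.univ.filter fun x => (τ i x ≠ x ∧ ¬ P i x) ∨
        ∃ α : Ix, α.1.1 = i ∧ u α (a α) (b α) = x) i} ⊆
        {i | (τ i).symm v ≠ v ∧ ¬ P i ((τ i).symm v)} ∪
        (fun α : Ix => α.1.1) '' {α | w α (a α) (b α) = v} := by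
      intro i hi
      rcases (hR i _).1 hi with h | ⟨α, h2, h3⟩
      · refine Or.inl ⟨fun h4 => h.1 ?_, h.2⟩
        rw [Equiv.apply_symm_apply, h4]
      · refine Or.inr ⟨α, ?_, h2⟩
        show τ α.1.1 (u α (a α) (b α)) = v
        rw [h3, h2, Equiv.apply_symm_apply]
    refine (Set.ncard_le_ncard h1 (Set.toFinite _)).trans ((Set.ncard_union_le _ _).trans ?_)
    refine Nat.add_le_add_left ((Set.ncard_image_le (Set.toFinite _)).trans (hwa v)) _

end Pool.Agent.H675.CO
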